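import Pool.Agent.PDM.Stmts

/-!
# PDM: the symbolic operations `APP` and `BAS`
-/

set_option autoImplicit false

namespace Pool.Agent.PDM.H94

open Pool.Agent.PDN Pool.Agent.PDM

theorem app (opa : OpaStmt) (opc : OpcStmt) (ope : OpeStmt) (mir : MirStmt) :
    Pool.Agent.PDM.AppStmt := by
  intro α dz mz db mb M h s
  have h3 : (3 : ℕ) ∉ ((if mz then [1] else []) ++ (if mb then [2] else []) : List ℕ) := by
    cases mz <;> cases mb <;> decide
  have h1 := opa 3 [(0, 1, 2)] ((if mz then [1] else []) ++ (if mb then [2] else [])) _ M h 0 1 2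
    (by decide) h3 [(0, 1, 3), (1, 2, 3), (2, 0, 3)]
    (fun n => if n = 0 then α + 1 else if n = 1 then dz + 1 else if n = 2 then db + 1 else 3)
    (by decide) (by intro n hn; interval_cases n <;> simp) (by simp)
  have h2 := opc 4 _ _ _ M h1 1 3 0 2 s (by decide) (by decide) (by decide) [(2, 0, 3)]
    (fun n => if n = 0 then α + 1 + s else if n = 1 then dz + 1 else
      if n = 2 then db + 1 + s else 3)
    (by decide) (by intro n hn; interval_cases n <;> simp)
  have h4 := ope 4 _ _ _ _ h2 3 (fun i => if i = 0 then 0 else i + 1) [(1, 0, 2)]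
    ((if mb then [1] else []) ++ (if false then [2] else []))
    (fun n => if n = 0 then α + 1 + s else if n = 1 then db + 1 + s else 3)
    (by intro i hi; interval_cases i <;> simp)
    (by intro i j hi hj; interval_cases i <;> interval_cases j <;> simp)
    (by decide)
    (by intro i hi; interval_cases i <;> cases mz <;> cases mb <;> decide)
    (by intro i hi; interval_cases i <;> simp)
  have h5 := mir 3 _ _ _ _ h4
  have h6 : ((Finset.range 4).filter (fun n => ∀ i, i < 3 → (if i = 0 then 0 else i + 1) ≠ n)) =
      {1} := by
    decide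
  have h7 : M + Multiset.replicate s (4, false) +
      ((Finset.range 4).filter (fun n => ∀ i, i < 3 → (if i = 0 then 0 else i + 1) ≠ n)).val.map
        (fun n => ((if n = 0 then α + 1 + s else if n = 1 then dz + 1 else
          if n = 2 then db + 1 + s else 3 : ℕ),
          decide (n ∈ ((if mz then [1] else []) ++ (if mb then [2] else []) : List ℕ)))) =
      M + {(dz + 1, mz)} + Multiset.replicate s (4, false) := by
    rw [h6]
    have h8 : decide ((1 : ℕ) ∈ ((if mz then [1] else []) ++ (if mb then [2] else []) : List ℕ)) =
        mz := by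
      cases mz <;> cases mb <;> decide
    rw [Finset.singleton_val, Multiset.map_singleton, h8, add_right_comm]
    rfl
  unfold St
  rw [← h7]
  refine Eq.mp ?_ h5
  congr

end Pool.Agent.PDM.H94
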