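import Pool.Agent.PDM.Stmts

/-!
# PDM: the symbolic base `BAS`
-/

set_option autoImplicit false

namespace Pool.Agent.PDM.H94

open Pool.Agent.PDN Pool.Agent.PDM

theorem bas (tet : TetStmt) (opa : OpaStmt) (opb : OpbStmt) (opd : OpdStmt) (ope : OpeStmt)
    (mir : MirStmt) : Pool.Agent.PDM.BasStmt := by
  intro D e hD he
  have h1 := opa 4 _ _ _ _ tet 1 3 2 (by decide) (by decide)
    [(0, 1, 2), (0, 2, 3), (0, 3, 1), (1, 3, 4), (3, 2, 4), (2, 1, 4)]
    (fun n => if n = 0 then 3 else if n = 4 then 3 else 4) (by decide)
    (by intro n hn; interval_cases n <;> simp) (by simp)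
  have h2 := opd 5 _ _ _ _ h1 3 2 4 (by decide) (by decide) (by decide) (by decide)
    [(0, 1, 2), (0, 2, 3), (0, 3, 1), (1, 3, 4), (2, 1, 4)] (by decide)
  have h3 := opb 5 _ _ _ _ h2 4 1 3 2 (e - 3) (by decide) (by decide) (by decide)
    [(0, 1, 2), (0, 2, 3), (0, 3, 1)]
    (fun n => if n = 0 then 3 else if n = 1 then e + 1 else if n = 4 then e else 5) (by decide)
    (by intro n hn; interval_cases n <;> simp <;> omega)
  have h4 := opb 5 _ _ _ _ h3 0 2 3 1 (D - 5) (by decide) (by decide) (by decide)
    [(0, 3, 1)]
    (fun n => if n = 0 then D - 2 else if n = 1 then e + 2 else if n = 2 then D else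
      if n = 3 then 6 else e) (by decide)
    (by intro n hn; interval_cases n <;> simp <;> omega)
  have h5 := ope 5 _ _ _ _ h4 3 (fun i => if i = 0 then 0 else if i = 1 then 1 else 3) [(1, 0, 2)]
    ((if false then [1] else []) ++ (if true then [2] else []))
    (fun n => if n = 0 then D - 2 else if n = 1 then e + 2 else 6)
    (by intro i hi; interval_cases i <;> simp)
    (by intro i j hi hj; interval_cases i <;> interval_cases j <;> simp)
    (by decide)
    (by intro i hi; interval_cases i <;> decide)
    (by intro i hi; interval_cases i <;> simp)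
  have h6 := mir 3 _ _ _ _ h5
  have h7 : ((Finset.range 5).filter (fun n => ∀ i, i < 3 →
      (if i = 0 then 0 else if i = 1 then 1 else 3) ≠ n)) = {2, 4} := by
    decide
  have h8 : (0 : Multiset (ℕ × Bool)) + Multiset.replicate (e - 3 + 1) (4, false) +
      Multiset.replicate (D - 5 + 1) (4, false) +
      ((Finset.range 5).filter (fun n => ∀ i, i < 3 →
        (if i = 0 then 0 else if i = 1 then 1 else 3) ≠ n)).val.map
        (fun n => ((if n = 0 then D - 2 else if n = 1 then e + 2 else if n = 2 then D else
          if n = 3 then 6 else e : ℕ), decide (n ∈ ([3, 2, 4] : List ℕ)))) =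
      {(e, true), (D, true)} + Multiset.replicate ((e - 2) + (D - 4)) (4, false) := by
    rw [h7]
    have h9 : ({2, 4} : Finset ℕ).val.map
        (fun n => ((if n = 0 then D - 2 else if n = 1 then e + 2 else if n = 2 then D else
          if n = 3 then 6 else e : ℕ), decide (n ∈ ([3, 2, 4] : List ℕ)))) =
        ({(e, true), (D, true)} : Multiset (ℕ × Bool)) := by
      have : ({2, 4} : Finset ℕ).val = ({2, 4} : Multiset ℕ) := rfl
      rw [this]
      simp only [Multiset.insert_eq_cons, Multiset.map_cons, Multiset.map_singleton]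
      simp
      exact Multiset.cons_swap _ _ _
    rw [h9, zero_add, ← Multiset.replicate_add, add_comm]
    congr 2
    omega
  unfold St
  rw [← h8]
  refine Eq.mp ?_ h6
  congr

end Pool.Agent.PDM.H94
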