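import Pool.Agent.PDM.Stmts

/-!
# PDM: the core of the necessity (`CNE`) and the necessity (`NE3`)
-/

set_option autoImplicit false

namespace Pool.Agent.PDM.H94

open Pool.Agent.PDN Pool.Agent.PDM

theorem cne (par : ParStmt) (cor : CorStmt) (bal : BalStmt) : Pool.Agent.PDM.CneStmt := by
  intro ι _ _ d mk m n q hd hι hsum hn hmk hR
  classical
  obtain ⟨V, _, T, φ, hconn, htight, hdeg, hdeg4, hq⟩ := par ι d mk m n q hd hι hsum hn hmk hR
  have hrange : ∀ v, v ∈ Set.range φ ↔ T.deg v ≠ 4 := by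
    intro v
    constructor
    · rintro ⟨i, rfl⟩
      rw [hdeg]
      have := hd i
      lia
    · intro h
      by_contra h'
      exact h (hdeg4 v h')
  have hH : Nat.card {v // T.deg v ≠ 4} = Fintype.card ι := by
    rw [← Nat.card_eq_fintype_card]
    apply Nat.card_congr
    refine (Equiv.ofInjective φ φ.injective).trans ?_ |>.symm
    exact Equiv.subtypeEquivRight hrange
  obtain ⟨μ, hsym, hne, hle, htot, hcount⟩ := cor V T hconn htight (by rw [hH]; exact hι)
  rw [hH] at htot hcount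
  have hz1 : ∀ u w, u ∉ Set.range φ → μ u w = 0 := by
    intro u w hu
    by_contra h
    exact hu ((hrange u).2 (hne u w h).1)
  have hz2 : ∀ u w, w ∉ Set.range φ → μ u w = 0 := by
    intro u w hw
    rw [hsym]
    exact hz1 w u hw
  have hsum1 : ∀ (g : V → ℕ), (∀ v, v ∉ Set.range φ → g v = 0) → ∑ v, g v = ∑ i, g (φ i) := by
    intro g hg
    have h1 : ∑ v ∈ Finset.univ.map φ, g v = ∑ i, g (φ i) := Finset.sum_map _ _ _
    rw [← h1]
    symm
    apply Finset.sum_subset (Finset.subset_univ _)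
    intro v _ hv
    apply hg
    rintro ⟨i, rfl⟩
    exact hv (Finset.mem_map_of_mem φ (Finset.mem_univ i))
  have hrow : ∀ i, ∑ w, μ (φ i) w = ∑ j, μ (φ i) (φ j) := by
    intro i
    exact hsum1 (fun w => μ (φ i) w) fun w hw => hz2 _ w hw
  have htot2 : ∑ u, ∑ w, μ u w = ∑ i, ∑ j, μ (φ i) (φ j) := by
    rw [hsum1 (fun u => ∑ w, μ u w) fun u hu => Finset.sum_eq_zero fun w _ => hz1 u w hu]
    exact Finset.sum_congr rfl fun i _ => hrow i
  have hdsum : ∑ u, (if T.deg u = 4 then 0 else T.deg u) = ∑ i, d i := by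
    rw [hsum1 (fun u => if T.deg u = 4 then 0 else T.deg u)]
    · refine Finset.sum_congr rfl fun i _ => ?_
      have h1 : T.deg (φ i) ≠ 4 := (hrange _).1 ⟨i, rfl⟩
      show (if T.deg (φ i) = 4 then 0 else T.deg (φ i)) = d i
      rw [if_neg h1, hdeg]
    · intro v hv
      have h1 : T.deg v = 4 := hdeg4 v hv
      show (if T.deg v = 4 then 0 else T.deg v) = 0
      rw [if_pos h1]
  obtain ⟨P, hP1, hP2, hP3, hP4, hP5⟩ := bal ι d (fun i j => μ (φ i) (φ j))
    (18 * Fintype.card ι) (fun i j => hsym _ _)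
    (by
      intro i
      by_contra h
      exact (hne _ _ h).2.2 rfl)
    (by
      intro i
      rw [← hrow, ← hdeg]
      exact hle (φ i))
    (by
      rw [← htot2, ← hdsum]
      exact htot)
  have hord : Nat.card {p : ι × ι // μ (φ p.1) (φ p.2) ≠ 0} ≤
      Nat.card {p : V × V // μ p.1 p.2 ≠ 0} := by
    apply Nat.card_le_card_of_injective
      (fun p : {p : ι × ι // μ (φ p.1) (φ p.2) ≠ 0} =>
        (⟨(φ p.1.1, φ p.1.2), p.2⟩ : {p : V × V // μ p.1 p.2 ≠ 0}))
    intro p p' h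
    have h1 := congrArg Subtype.val h
    simp only [Prod.mk.injEq, EmbeddingLike.apply_eq_iff_eq] at h1
    exact Subtype.ext (Prod.ext h1.1 h1.2)
  refine ⟨P, hP1, hP2, by lia, ?_, hP5⟩
  intro C hC
  obtain ⟨s, hs1, hs2⟩ := hP4 C hC
  refine ⟨s, hs1, ?_⟩
  push_cast at hs2
  exact hs2

theorem ne3 (cneS : CneStmt) (num : NumStmt) (ar3 : Ar3Stmt) : Pool.Agent.PDM.Ne3Stmt := by
  intro t τ hR
  obtain ⟨hcard, hmk, hsum, hd, hn⟩ := num t τ
  obtain ⟨P, hP1, hP2, hP3, hP4, hP5⟩ := cneS (Big τ) dgr mrk (n4 τ) (n3 τ) (2 * t + 2)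
    (fun v => le_trans (by norm_num) (hd v)) (by rw [hcard]; lia) hsum hn (by rw [hmk]; ring) hR
  exact ar3 t τ P hP1 hP2 (by lia) hP4 (hP5 zz)

end Pool.Agent.PDM.H94
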