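import Mathlib
import Pool.Agent.PDM.Stmts
import Pool.Agent.Helper46_PDN.Eul

/-!
# PDM, row EU3
-/

set_option autoImplicit false

namespace Pool.Agent.PDM.H94

open Pool.Agent.PDN Pool.Agent.PDN.H46

/-- EU3: the proof of EUL (helper46) -/
theorem eu3 : Pool.Agent.PDM.Eu3Stmt := by
  classical
  intro V _ G hpl hdeg hsum
  obtain ⟨ρ, h1, h2, hE⟩ := hpl
  have hfin : Finite V := inferInstance
  letI : DecidableRel G.Adj := Classical.decRel _
  have hdc : ∀ v, Nat.card (G.neighborSet v) = G.degree v := fun v => by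
    rw [Nat.card_eq_fintype_card, G.card_neighborSet_eq_degree]
  have hface := face_ge ρ h1 h2 (fun v => by have := hdeg v; omega)
  -- counts
  have hD1 : Fintype.card G.Dart = ∑ v, Nat.card (G.neighborSet v) := by
    rw [G.dart_card_eq_sum_degrees]
    exact Finset.sum_congr rfl fun v _ => (hdc v).symm
  have hD2 : Fintype.card G.Dart = 2 * Nat.card G.edgeSet := by
    rw [G.dart_card_eq_twice_card_edges, Nat.card_eq_fintype_card, ← G.edgeFinset_card]
  have hiso : Nat.card {v : V // ∀ w, ¬ G.Adj v w} = 0 := by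
    rw [Finite.card_eq_zero_iff]
    constructor
    rintro ⟨v, hv⟩
    have h5 : Nat.card (G.neighborSet v) = 0 := by
      rw [Finite.card_eq_zero_iff]
      exact ⟨fun w => hv w w.2⟩
    have := hdeg v
    omega
  have hVn : Nat.card V = Fintype.card V := Nat.card_eq_fintype_card
  -- the map to the faces
  haveI hfq : Finite (Faces ρ) :=
    inferInstanceAs (Finite (Quotient (Equiv.Perm.SameCycle.setoid (facePerm ρ))))
  letI : Fintype (Faces ρ) := Fintype.ofFinite _
  obtain ⟨π, hπ⟩ : ∃ π : G.Dart → Faces ρ, π = fun d => Quotient.mk _ d := ⟨_, rfl⟩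
  have hπe : ∀ d e, π d = π e ↔ (facePerm ρ).SameCycle d e := by
    intro d e
    rw [hπ]
    exact Quotient.eq (r := Equiv.Perm.SameCycle.setoid (facePerm ρ))
  have hπs : ∀ x : Faces ρ, ∃ d, π d = x := by
    intro x
    obtain ⟨d, hd⟩ := Quotient.exists_rep x
    exact ⟨d, by rw [hπ]; exact hd⟩
  have hsame1 : ∀ d, π (facePerm ρ d) = π d := fun d =>
    (hπe _ _).2 (Equiv.Perm.SameCycle.rfl.apply_left)
  have htrip : ∀ d, ({d, facePerm ρ d, facePerm ρ (facePerm ρ d)} : Finset G.Dart).card = 3 := by
    intro d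
    rw [Finset.card_eq_three]
    refine ⟨d, facePerm ρ d, facePerm ρ (facePerm ρ d), (hface d).1.symm, (hface d).2.symm, ?_, rfl⟩
    exact (hface _).1.symm
  have hsub : ∀ d, ({d, facePerm ρ d, facePerm ρ (facePerm ρ d)} : Finset G.Dart) ⊆
      Finset.univ.filter fun e => π e = π d := by
    intro d e he
    rw [Finset.mem_filter]
    refine ⟨Finset.mem_univ _, ?_⟩
    simp only [Finset.mem_insert, Finset.mem_singleton] at he
    rcases he with rfl | rfl | rfl
    · rfl
    · exact hsame1 d
    · rw [hsame1, hsame1]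
  have hge : ∀ x : Faces ρ, 3 ≤ (Finset.univ.filter fun e => π e = x).card := by
    intro x
    obtain ⟨d, rfl⟩ := hπs x
    rw [← htrip d]
    exact Finset.card_le_card (hsub d)
  have hcount : Fintype.card G.Dart = ∑ x : Faces ρ, (Finset.univ.filter fun e => π e = x).card := by
    rw [← Finset.card_univ]
    exact Finset.card_eq_sum_card_fiberwise fun _ _ => Finset.mem_univ _
  have hFn : Nat.card (Faces ρ) = Fintype.card (Faces ρ) := Nat.card_eq_fintype_card
  have h3F : 3 * Fintype.card (Faces ρ) ≤ Fintype.card G.Dart := by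
    rw [hcount]
    calc 3 * Fintype.card (Faces ρ) = ∑ _x : Faces ρ, 3 := by
          rw [Finset.sum_const, Finset.card_univ, smul_eq_mul, mul_comm]
      _ ≤ _ := Finset.sum_le_sum fun x _ => hge x
  have hVpos : 0 < Fintype.card V := by omega
  haveI : Nonempty V := Fintype.card_pos_iff.1 hVpos
  have hC1 : 1 ≤ Nat.card G.ConnectedComponent := by
    haveI : Nonempty G.ConnectedComponent := ⟨G.connectedComponentMk (Classical.arbitrary V)⟩
    exact Nat.card_pos
  have hC : Nat.card G.ConnectedComponent = 1 := by omega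
  have hF : 3 * Fintype.card (Faces ρ) = Fintype.card G.Dart := by omega
  -- every face has exactly three darts
  have heq : ∀ x : Faces ρ, (Finset.univ.filter fun e => π e = x).card = 3 := by
    by_contra hcon
    rw [not_forall] at hcon
    obtain ⟨x, hx⟩ := hcon
    have hlt : 3 < (Finset.univ.filter fun e => π e = x).card :=
      lt_of_le_of_ne (hge x) (Ne.symm hx)
    have : ∑ _x : Faces ρ, 3 < ∑ x : Faces ρ, (Finset.univ.filter fun e => π e = x).card :=
      Finset.sum_lt_sum (fun x _ => hge x) ⟨x, Finset.mem_univ _, hlt⟩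
    rw [← hcount, Finset.sum_const, Finset.card_univ, smul_eq_mul] at this
    omega
  have h3 : ∀ d, facePerm ρ (facePerm ρ (facePerm ρ d)) = d := by
    intro d
    have h5 : ({d, facePerm ρ d, facePerm ρ (facePerm ρ d)} : Finset G.Dart) =
        Finset.univ.filter fun e => π e = π d :=
      Finset.eq_of_subset_of_card_le (hsub d) (by rw [heq, htrip])
    have h6 : facePerm ρ (facePerm ρ (facePerm ρ d)) ∈
        ({d, facePerm ρ d, facePerm ρ (facePerm ρ d)} : Finset G.Dart) := by
      rw [h5, Finset.mem_filter]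
      refine ⟨Finset.mem_univ _, ?_⟩
      rw [hsame1, hsame1, hsame1]
    simp only [Finset.mem_insert, Finset.mem_singleton] at h6
    rcases h6 with h6 | h6 | h6
    · exact h6
    · exact absurd h6 (hface _).2
    · exact absurd h6 (hface _).1
  obtain ⟨T, hT⟩ : ∃ T, T = tri ρ h1 h2 h3 := ⟨_, rfl⟩
  have hadj : ∀ u v, T.Adj u v ↔ G.Adj u v := by
    intro u v
    rw [hT]
    constructor
    · rintro ⟨w, d, rfl, rfl, _⟩
      exact d.adj
    · intro h
      exact ⟨_, ⟨(u, v), h⟩, rfl, rfl, rfl⟩
  refine ⟨T, ?_, ?_, ?_, ?_⟩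
  · ext u v
    exact hadj u v
  · haveI : Subsingleton G.ConnectedComponent :=
      Finite.card_le_one_iff_subsingleton.1 hC.le
    refine ⟨fun u v => ?_⟩
    exact SimpleGraph.ConnectedComponent.eq.1 (Subsingleton.elim _ _)
  · unfold Tri.Tight
    have e : {p : V × V // T.Adj p.1 p.2} ≃ G.Dart :=
      { toFun := fun p => ⟨p.1, (hadj _ _).1 p.2⟩
        invFun := fun d => ⟨d.toProd, (hadj _ _).2 d.adj⟩
        left_inv := fun _ => rfl
        right_inv := fun _ => rfl }
    rw [Nat.card_congr e, Nat.card_eq_fintype_card, hVn, hD1]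
    exact hsum
  · intro v
    unfold Tri.deg
    exact Nat.card_congr (Equiv.subtypeEquivRight fun w => hadj v w)

end Pool.Agent.PDM.H94
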