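import Mathlib
import Pool.Agent.Helper76_PDT.Fnl

/-!
# NP-hardness for every class between the maximal planar graphs and the planar graphs
-/

set_option autoImplicit false

namespace Pool.Agent.PDM.H94

open Pool.Agent.PDN Pool.Agent.PDM Pool.Agent.PDT Pool.Agent.Common_CookLevin
  Pool.Agent.Helper32_HCK

/-- The decision problem: is the given finite list of natural numbers (entry `v` written as `v`
letters `true` followed by a `false`), up to the order, the list of the degrees of a finite graph
of the class `𝒢`? -/
def degreeProblem (𝒢 : (V : Type) → SimpleGraph V → Prop) : DecisionProblem where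
  Inst := List ℕ
  Alph := Bool
  alphFintype := inferInstance
  enc := encSeq
  enc_injective := encSeq_injective
  Yes := fun l => ∃ (V : Type) (_ : Fintype V) (G : SimpleGraph V), 𝒢 V G ∧
    Finset.univ.val.map (fun v : V => Nat.card (G.neighborSet v)) = (l : Multiset ℕ)

theorem sum_deg {V : Type} [Fintype V] (G : SimpleGraph V) :
    ∑ v : V, Nat.card (G.neighborSet v) = 2 * Nat.card G.edgeSet := by
  classical
  have h := G.sum_degrees_eq_twice_card_edges
  rw [← G.coe_edgeFinset, Nat.card_coe_set_eq, Set.ncard_coe_finset, ← h]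
  refine Finset.sum_congr rfl fun v _ => ?_
  rw [Nat.card_eq_fintype_card, G.card_neighborSet_eq_degree]

theorem hard (okt : OktStmt) (sou : SouStmt) (com : ComStmt) (mat : MatStmt) (lst : LstStmt)
    (tim : TimStmt) (ne : Ne3Stmt) (su : Su3Stmt) (siz : SizStmt)
    (𝒢 : (V : Type) → SimpleGraph V → Prop)
    (hpl : ∀ (V : Type) [Fintype V] (G : SimpleGraph V), 𝒢 V G → Planar G)
    (hmax : ∀ (V : Type) [Fintype V] (G : SimpleGraph V), Planar G → 4 ≤ Fintype.card V →
      Nat.card G.edgeSet + 6 = 3 * Fintype.card V → 𝒢 V G) :
    NPHard (degreeProblem 𝒢) := by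
  intro L hL
  refine hard_of_sat (Q := degreeProblem 𝒢) ⟨seqF, tim, fun F => ?_⟩ L hL
  have h1 := H76.seqF_iff okt sou com mat lst ne su F
  have h2 : 4 ≤ (seqF F).length := H76.four_le_length _ _
  have h3 : (seqF F).sum + 12 = 6 * (seqF F).length := by
    unfold seqF
    have hok := okt F ((encodeCNF F).length + 1)
    have h4 := (siz _ (toIns (2 * (((encodeCNF F).length + 1) * ((encodeCNF F).length + 1)))
      (trips F ((encodeCNF F).length + 1)))).1
    rw [← lst _ _ hok, Multiset.sum_coe, Multiset.coe_card] at h4
    exact h4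
  constructor
  · intro h
    obtain ⟨V, _, G, hG, hd⟩ := h1.1 h
    have hc : Fintype.card V = (seqF F).length := by
      have := congrArg Multiset.card hd
      rw [Multiset.card_map, Multiset.coe_card] at this
      exact this
    have hs : ∑ v : V, Nat.card (G.neighborSet v) = (seqF F).sum := by
      have := congrArg Multiset.sum hd
      rw [Multiset.sum_coe] at this
      exact this
    rw [sum_deg] at hs
    exact ⟨V, inferInstance, G, hmax V G hG (by omega) (by omega), hd⟩
  · rintro ⟨V, _, G, hG, hd⟩
    exact h1.2 ⟨V, inferInstance, G, hpl V G hG, hd⟩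

end Pool.Agent.PDM.H94
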