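import Mathlib
import Pool.Agent.PDM.Asm
import Pool.Agent.Helper81_PDN.LNK
import Pool.Agent.Helper17_PDN.Sub
import Pool.Agent.Helper69_PDN.Str
import Pool.Agent.Helper56_PDN.TPL
import Pool.Agent.Helper10_PDM.Par
import Pool.Agent.Helper14_PDM.SML
import Pool.Agent.Helper17_PDM.TET
import Pool.Agent.Helper18_PDM.Fin
import Pool.Agent.Helper18_PDM.Mir
import Pool.Agent.Helper18_PDM.Opa
import Pool.Agent.Helper18_PDM.Opd
import Pool.Agent.Helper19_PDM.INS
import Pool.Agent.Helper21_PDM.ALF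
import Pool.Agent.Helper24_PDM.OPC
import Pool.Agent.Helper25_PDM.Rm3
import Pool.Agent.Helper33_PDM.FIL
import Pool.Agent.Helper3_PDM.OPB
import Pool.Agent.Helper41_PDM.SIZ
import Pool.Agent.Helper41_PDM.TOT
import Pool.Agent.Helper56_PDM.COR
import Pool.Agent.Helper59_PDM.Bal
import Pool.Agent.Helper69_PDM.Num
import Pool.Agent.Helper6_PDM.CAP
import Pool.Agent.Helper6_PDM.OPE
import Pool.Agent.Helper72_PDM.SU3
import Pool.Agent.Helper79_PDM.CH3
import Pool.Agent.Helper79_PDM.CHE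
import Pool.Agent.Helper82_PDM.BLK
import Pool.Agent.Helper82_PDM.PTH
import Pool.Agent.Helper86_PDM.AR3
import Pool.Agent.Helper86_PDM.SID
import Pool.Agent.Helper94_PDM.App
import Pool.Agent.Helper94_PDM.Bas
import Pool.Agent.Helper94_PDM.Cne
import Pool.Agent.Helper94_PDM.Eu3

/-!
# PDM: all rows composed
-/

set_option autoImplicit false

namespace Pool.Agent.PDM.H94

open Pool.Agent.PDN Pool.Agent.PDM

/-- necessity -/
theorem ne3' : Ne3Stmt :=
  ne3 (cne (H10.par eu3 H25.rm3)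
    (H56.cor Pool.Agent.PDN.H81.lnk H21.alf (H79.che Pool.Agent.PDN.H81.lnk)) H59.bal) H69.num
    (H86.ar3 (H14.sml H86.sid) (H41.tot H86.sid) H69.num)

/-- sufficiency -/
theorem su3 : Su3Stmt := by
  have str : StrStmt := Pool.Agent.PDN.H69.str Pool.Agent.PDN.H17.sub
  have opa : OpaStmt := H18.opa H19.ins
  have opb : OpbStmt := H3.opb str
  have opc : OpcStmt := H24.opc (H82.pth Pool.Agent.PDN.H17.sub)
  have hAPP : AppStmt := app opa opc H6.ope H18.mir
  have hBAS : BasStmt := bas H17.tetS opa opb H18.opd H6.ope H18.mir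
  have hBLK : BlkStmt := H82.blk hAPP opa opb H18.opd H6.ope
  have hCAP : CapStmt := H6.cap hAPP opa opb H18.opd H6.ope
  exact H72.su3 H69.num (H18.fin Pool.Agent.PDN.H56.tpl (H33.fil H19.ins))
    (H79.ch3 hBAS hAPP hBLK hCAP)

/-- the size -/
theorem siz : SizStmt := H41.siz H69.num

/-- all -/
theorem main : MainStmt :=
  asm ne3' su3 siz

end Pool.Agent.PDM.H94
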